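import Pool.Agent.U900.NS.Pert

set_option autoImplicit false

/-! # Informational completeness -/

namespace Pool.Agent.U900.NS

open Finset Complex Pool.Agent.R503.SIC
open scoped ComplexConjugate

variable {d : ℕ} [NeZero d]

theorem ft_inj (g : ZMod d × ZMod d → ℂ)
    (h : ∀ k x : ZMod d, ∑ p : ZMod d × ZMod d, g p * e (p.2 * k + p.1 * x) = 0)
    (q : ZMod d × ZMod d) : g q = 0 := by
  have hd' : (d : ℂ) ≠ 0 := by exact_mod_cast NeZero.ne d
  have h1 : ∑ k : ZMod d, ∑ x : ZMod d, e (-(q.2 * k + q.1 * x)) *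
      ∑ p : ZMod d × ZMod d, g p * e (p.2 * k + p.1 * x) = 0 := by
    refine sum_eq_zero fun k _ => sum_eq_zero fun x _ => ?_
    rw [h, mul_zero]
  have h2 : ∑ k : ZMod d, ∑ x : ZMod d, e (-(q.2 * k + q.1 * x)) *
      ∑ p : ZMod d × ZMod d, g p * e (p.2 * k + p.1 * x) =
      ∑ p : ZMod d × ZMod d, g p * ((∑ k : ZMod d, e (k * (p.2 - q.2))) *
        ∑ x : ZMod d, e (x * (p.1 - q.1))) := by
    calc _ = ∑ k : ZMod d, ∑ x : ZMod d, ∑ p : ZMod d × ZMod d,
          g p * (e (k * (p.2 - q.2)) * e (x * (p.1 - q.1))) := by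
          refine sum_congr rfl fun k _ => sum_congr rfl fun x _ => ?_
          rw [mul_sum]
          refine sum_congr rfl fun p _ => ?_
          rw [← e_add]
          have h3 : k * (p.2 - q.2) + x * (p.1 - q.1) =
              -(q.2 * k + q.1 * x) + (p.2 * k + p.1 * x) := by ring
          rw [h3, e_add (-(q.2 * k + q.1 * x))]; ring
      _ = ∑ k : ZMod d, ∑ p : ZMod d × ZMod d, ∑ x : ZMod d,
          g p * (e (k * (p.2 - q.2)) * e (x * (p.1 - q.1))) := by
          refine sum_congr rfl fun k _ => ?_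
          rw [sum_comm]
      _ = ∑ p : ZMod d × ZMod d, ∑ k : ZMod d, ∑ x : ZMod d,
          g p * (e (k * (p.2 - q.2)) * e (x * (p.1 - q.1))) := by rw [sum_comm]
      _ = _ := by
          refine sum_congr rfl fun p _ => ?_
          rw [sum_mul_sum, mul_sum]
          refine sum_congr rfl fun k _ => ?_
          rw [mul_sum]
  rw [h2, sum_eq_single q] at h1
  · rw [sub_self, sub_self, sum_e, if_pos rfl] at h1
    rcases mul_eq_zero.1 h1 with h3 | h3
    · exact h3
    · exact absurd h3 (mul_ne_zero hd' hd')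
  · intro p _ hp
    rw [sum_e, sum_e]
    by_cases h4 : p.2 - q.2 = 0
    · have h5 : p.1 - q.1 ≠ 0 := by
        intro h5
        exact hp (Prod.ext (sub_eq_zero.1 h5) (sub_eq_zero.1 h4))
      rw [if_neg h5]; ring
    · rw [if_neg h4]; ring
  · intro h; exact absurd (mem_univ _) h

/-- linear independence of the `d ^ 2` rank-one operators, entrywise -/
theorem info_complete {f : ZMod d → ℂ} (hf : ∀ a b : ZMod d, ov f a b ≠ 0)
    (g : ZMod d × ZMod d → ℂ)
    (h : ∀ i j : ZMod d, ∑ p : ZMod d × ZMod d, g p * ((e (p.2 * (i - p.1)) * f (i - p.1)) *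
      conj (e (p.2 * (j - p.1)) * f (j - p.1))) = 0) (q : ZMod d × ZMod d) : g q = 0 := by
  apply ft_inj g
  intro k x
  have h1 : ∑ i : ZMod d, e (i * x) * ∑ p : ZMod d × ZMod d,
      g p * ((e (p.2 * (i - p.1)) * f (i - p.1)) *
      conj (e (p.2 * (i - k - p.1)) * f (i - k - p.1))) = 0 := by
    refine sum_eq_zero fun i _ => ?_
    rw [h, mul_zero]
  have h2 : ∑ i : ZMod d, e (i * x) * ∑ p : ZMod d × ZMod d,
      g p * ((e (p.2 * (i - p.1)) * f (i - p.1)) *
      conj (e (p.2 * (i - k - p.1)) * f (i - k - p.1))) =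
      (∑ p : ZMod d × ZMod d, g p * e (p.2 * k + p.1 * x)) * (e (k * x) * conj (ov f k (-x))) := by
    calc _ = ∑ i : ZMod d, ∑ p : ZMod d × ZMod d, g p * e (p.2 * k) *
          (e (i * x) * (f (i - p.1) * conj (f (i - k - p.1)))) := by
          refine sum_congr rfl fun i _ => ?_
          rw [mul_sum]
          refine sum_congr rfl fun p _ => ?_
          rw [map_mul, conj_e]
          have h3 : e (p.2 * k) = e (p.2 * (i - p.1)) * e (-(p.2 * (i - k - p.1))) := by
            rw [← e_add]; congr 1; ring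
          rw [h3]; ring
      _ = ∑ p : ZMod d × ZMod d, ∑ i : ZMod d, g p * e (p.2 * k) *
          (e (i * x) * (f (i - p.1) * conj (f (i - k - p.1)))) := sum_comm
      _ = ∑ p : ZMod d × ZMod d, (g p * e (p.2 * k + p.1 * x)) *
          (e (k * x) * conj (ov f k (-x))) := by
          refine sum_congr rfl fun p _ => ?_
          rw [← mul_sum, e_add]
          have h4 : ∑ i : ZMod d, e (i * x) * (f (i - p.1) * conj (f (i - k - p.1))) =
              e (p.1 * x) * (e (k * x) * conj (ov f k (-x))) := by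
            unfold ov
            rw [map_sum, mul_sum, mul_sum]
            symm
            refine Fintype.sum_equiv (Equiv.addRight (k + p.1)) _ _ fun m => ?_
            simp only [Equiv.coe_addRight, map_mul, Complex.conj_conj, conj_e]
            have h5 : m + (k + p.1) - p.1 = m + k := by ring
            have h6 : m + (k + p.1) - k - p.1 = m := by ring
            have h7 : e ((m + (k + p.1)) * x) = e (p.1 * x) * (e (k * x) * e (-(-x * m))) := by
              rw [← e_add, ← e_add]; congr 1; ring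
            rw [h5, h6, h7]; ring
          rw [h4]; ring
      _ = _ := by rw [sum_mul]
  rw [h2] at h1
  rcases mul_eq_zero.1 h1 with h3 | h3
  · exact h3
  · exfalso
    rcases mul_eq_zero.1 h3 with h4 | h4
    · exact e_ne_zero _ h4
    · rw [map_eq_zero] at h4
      exact hf _ _ h4

/-- resolution of the identity, entrywise -/
theorem resolution (f : ZMod d → ℂ) (i j : ZMod d) :
    ∑ p : ZMod d × ZMod d, (e (p.2 * (i - p.1)) * f (i - p.1)) *
      conj (e (p.2 * (j - p.1)) * f (j - p.1)) =
      if i = j then (d : ℂ) * ((∑ m, ‖f m‖ ^ 2 : ℝ) : ℂ) else 0 := by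
  have h1 : ∑ p : ZMod d × ZMod d, (e (p.2 * (i - p.1)) * f (i - p.1)) *
      conj (e (p.2 * (j - p.1)) * f (j - p.1)) =
      (∑ a : ZMod d, f (i - a) * conj (f (j - a))) * ∑ b : ZMod d, e (b * (i - j)) := by
    rw [Fintype.sum_prod_type, sum_mul_sum]
    refine sum_congr rfl fun a _ => sum_congr rfl fun b _ => ?_
    rw [map_mul, conj_e]
    have h3 : e (b * (i - j)) = e (b * (i - a)) * e (-(b * (j - a))) := by
      rw [← e_add]; congr 1; ring
    rw [h3]; ring
  rw [h1, sum_e]
  by_cases hij : i = j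
  · subst hij
    rw [if_pos (sub_self i), if_pos rfl, mul_comm]
    congr 1
    push_cast
    refine Fintype.sum_equiv (Equiv.subLeft i) _ _ fun a => ?_
    rw [Equiv.subLeft_apply, mul_comm, conj_mul_self']
    push_cast
    rfl
  · rw [if_neg (fun h => hij (sub_eq_zero.1 h)), if_neg hij, mul_zero]

end Pool.Agent.U900.NS
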