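import Pool.Agent.U900.NS.Vec

set_option autoImplicit false

/-! # Making all overlaps nonzero; informational completeness -/

namespace Pool.Agent.U900.NS

open Finset Complex Pool.Agent.R503.SIC
open scoped ComplexConjugate

variable {d : ℕ} [NeZero d]

theorem exists_strict (d : ℕ) [NeZero d] : ∃ f : ZMod d → ℂ, 0 < ∑ j, ‖f j‖ ^ 2 ∧
    ∀ a b : ZMod d, (a, b) ≠ (0, 0) →
      ‖ov f a b‖ ^ 2 * ((d : ℝ) + 1) < 96 * (∑ j, ‖f j‖ ^ 2) ^ 2 := by
  have hd0 : 0 < d := Nat.pos_of_ne_zero (NeZero.ne d)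
  by_cases hd : 95 ≤ d
  · obtain ⟨f, h1, h2⟩ := exists_large hd
    have hd' : (95 : ℝ) ≤ d := by exact_mod_cast hd
    refine ⟨f, by linarith, fun a b hab => ?_⟩
    have h3 := h2 a b hab
    have h4 : (d : ℝ) ^ 2 ≤ (∑ j, ‖f j‖ ^ 2) ^ 2 := pow_le_pow_left₀ (by linarith) h1 2
    have h5 : ‖ov f a b‖ ^ 2 * ((d : ℝ) + 1) ≤ 94.5 * d * (d + 1) :=
      mul_le_mul_of_nonneg_right h3 (by linarith)
    nlinarith
  · have hsum : ∑ j : ZMod d, ‖(Pi.single 0 1 : ZMod d → ℂ) j‖ ^ 2 = 1 := by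
      rw [sum_eq_single 0]
      · simp
      · intro j _ hj; rw [Pi.single_eq_of_ne hj]; simp
      · intro h; exact absurd (mem_univ _) h
    refine ⟨Pi.single 0 1, by rw [hsum]; norm_num, fun a b _ => ?_⟩
    have h1 : ‖ov (Pi.single 0 1 : ZMod d → ℂ) a b‖ ≤ 1 := by
      unfold ov
      rw [sum_eq_single 0]
      · rw [norm_mul, norm_mul, Complex.norm_conj, norm_e, Pi.single_eq_same, norm_one, mul_one,
          mul_one]
        by_cases h : (0 : ZMod d) + a = 0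
        · rw [h, Pi.single_eq_same, norm_one]
        · rw [Pi.single_eq_of_ne h, norm_zero]; exact zero_le_one
      · intro j _ hj; rw [Pi.single_eq_of_ne hj]; simp
      · intro h; exact absurd (mem_univ _) h
    rw [hsum]
    have h2 : ‖ov (Pi.single 0 1 : ZMod d → ℂ) a b‖ ^ 2 ≤ 1 := by
      have := norm_nonneg (ov (Pi.single 0 1 : ZMod d → ℂ) a b)
      nlinarith
    have h3 : (d : ℝ) + 1 < 96 := by exact_mod_cast (by omega : d + 1 < 96)
    have h4 : (0 : ℝ) < (d : ℝ) + 1 := by positivity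
    nlinarith

theorem continuous_ov (a b : ZMod d) : Continuous fun f : ZMod d → ℂ => ov f a b := by
  unfold ov
  fun_prop

/-- every overlap is nonzero for some vector -/
theorem exists_ov_ne (a b : ZMod d) : ∃ f : ZMod d → ℂ, ov f a b ≠ 0 := by
  by_contra hcon
  push Not at hcon
  have h1 : ∀ c : ℂ, ov (Pi.single 0 1 + c • Pi.single a 1 : ZMod d → ℂ) a b = 0 :=
    fun c => hcon _
  have hS : ∀ (i : ZMod d) (F : ZMod d → ℂ), ∑ j, (Pi.single i 1 : ZMod d → ℂ) j * F j = F i := by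
    intro i F
    rw [sum_eq_single i]
    · simp
    · intro j _ hj; rw [Pi.single_eq_of_ne hj]; simp
    · intro h; exact absurd (mem_univ _) h
  -- expansion
  have h2 : ∀ c : ℂ, ov (Pi.single 0 1 + c • Pi.single a 1 : ZMod d → ℂ) a b =
      (conj ((Pi.single 0 1 : ZMod d → ℂ) a) + conj c * conj ((Pi.single a 1 : ZMod d → ℂ) a)) +
      c * (e (b * a) * (conj ((Pi.single 0 1 : ZMod d → ℂ) (a + a)) +
        conj c * conj ((Pi.single a 1 : ZMod d → ℂ) (a + a)))) := by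
    intro c
    unfold ov
    have h3 : ∀ j : ZMod d, conj ((Pi.single 0 1 + c • Pi.single a 1 : ZMod d → ℂ) (j + a)) *
        (e (b * j) * (Pi.single 0 1 + c • Pi.single a 1 : ZMod d → ℂ) j) =
        (Pi.single 0 1 : ZMod d → ℂ) j * (e (b * j) * (conj ((Pi.single 0 1 : ZMod d → ℂ) (j + a)) +
          conj c * conj ((Pi.single a 1 : ZMod d → ℂ) (j + a)))) +
        (Pi.single a 1 : ZMod d → ℂ) j * (c * (e (b * j) *
          (conj ((Pi.single 0 1 : ZMod d → ℂ) (j + a)) +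
          conj c * conj ((Pi.single a 1 : ZMod d → ℂ) (j + a))))) := by
      intro j
      simp only [Pi.add_apply, Pi.smul_apply, smul_eq_mul, map_add, map_mul]
      ring
    rw [sum_congr rfl fun j _ => h3 j, sum_add_distrib, hS, hS, mul_zero, e_zero, zero_add]
    ring
  by_cases ha : a = 0
  · have h3 := h1 0
    rw [h2, ha] at h3
    simp at h3
  · have h3 := h1 1
    have h4 := h1 Complex.I
    rw [h2] at h3 h4
    rw [Pi.single_eq_of_ne ha, Pi.single_eq_same] at h3 h4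
    have h5 : (Pi.single a 1 : ZMod d → ℂ) (a + a) = 0 := by
      apply Pi.single_eq_of_ne
      intro h; exact ha (by simpa using h)
    rw [h5] at h3 h4
    simp only [map_zero, map_one, mul_one, zero_add, mul_zero, add_zero, one_mul,
      Complex.conj_I] at h3 h4
    set q := e (b * a) * conj ((Pi.single 0 1 : ZMod d → ℂ) (a + a))
    have h6 : q = -1 := by linear_combination h3
    rw [h6] at h4
    have h7 : Complex.I = 0 := by linear_combination (-1 / 2 : ℂ) * h4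
    exact Complex.I_ne_zero h7

/-- second difference of an overlap -/
theorem ov_second_diff (f g : ZMod d → ℂ) (h : ℝ) (a b : ZMod d) :
    ov (f + ((2 * h : ℝ) : ℂ) • g) a b - 2 * ov (f + ((h : ℝ) : ℂ) • g) a b + ov f a b =
      2 * (h : ℂ) ^ 2 * ov g a b := by
  unfold ov
  rw [mul_sum, mul_sum, ← sum_sub_distrib, ← sum_add_distrib]
  refine sum_congr rfl fun j _ => ?_
  simp only [Pi.add_apply, Pi.smul_apply, smul_eq_mul, map_add, map_mul, Complex.conj_ofReal]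
  push_cast
  ring

theorem dense_ov_ne (a b : ZMod d) : Dense {f : ZMod d → ℂ | ov f a b ≠ 0} := by
  rw [Metric.dense_iff]
  intro f r hr
  obtain ⟨g, hg⟩ := exists_ov_ne a b
  by_cases hf : ov f a b = 0
  · have hlim : Filter.Tendsto (fun h : ℝ => f + ((2 * h : ℝ) : ℂ) • g) (nhds 0) (nhds f) := by
      have : Continuous fun h : ℝ => f + ((2 * h : ℝ) : ℂ) • g := by fun_prop
      have h1 := this.tendsto 0
      simpa using h1
    have hlim2 : Filter.Tendsto (fun h : ℝ => f + ((h : ℝ) : ℂ) • g) (nhds 0) (nhds f) := by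
      have : Continuous fun h : ℝ => f + ((h : ℝ) : ℂ) • g := by fun_prop
      have h1 := this.tendsto 0
      simpa using h1
    have e1 : ∀ᶠ h : ℝ in nhds 0, f + ((2 * h : ℝ) : ℂ) • g ∈ Metric.ball f r :=
      hlim (Metric.ball_mem_nhds f hr)
    have e2 : ∀ᶠ h : ℝ in nhds 0, f + ((h : ℝ) : ℂ) • g ∈ Metric.ball f r :=
      hlim2 (Metric.ball_mem_nhds f hr)
    have e3 := e1.and e2
    obtain ⟨ε, hε, h⟩ := Metric.eventually_nhds_iff.1 e3
    have h1 := h (y := ε / 2) (by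
      rw [Real.dist_eq, sub_zero, abs_of_pos (by linarith)]; linarith)
    have h2 := ov_second_diff f g (ε / 2) a b
    by_contra hcon
    rw [Set.not_nonempty_iff_eq_empty, Set.eq_empty_iff_forall_notMem] at hcon
    have h4 : ov (f + ((2 * (ε / 2) : ℝ) : ℂ) • g) a b = 0 := by
      by_contra h5
      exact hcon _ ⟨h1.1, h5⟩
    have h5 : ov (f + ((ε / 2 : ℝ) : ℂ) • g) a b = 0 := by
      by_contra h5
      exact hcon _ ⟨h1.2, h5⟩
    rw [h4, h5, hf] at h2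
    have h6 : (2 * ((ε / 2 : ℝ) : ℂ) ^ 2 * ov g a b) ≠ 0 := by
      apply mul_ne_zero (mul_ne_zero two_ne_zero (pow_ne_zero 2 _)) hg
      exact_mod_cast (by positivity : (ε / 2 : ℝ) ≠ 0)
    apply h6
    rw [← h2]; ring
  · exact ⟨f, Metric.mem_ball_self hr, hf⟩

/-- an unnormalised vector with small nonzero overlaps -/
theorem exists_strict_ne (d : ℕ) [NeZero d] : ∃ f : ZMod d → ℂ, 0 < ∑ j, ‖f j‖ ^ 2 ∧
    (∀ a b : ZMod d, (a, b) ≠ (0, 0) →
      ‖ov f a b‖ ^ 2 * ((d : ℝ) + 1) < 96 * (∑ j, ‖f j‖ ^ 2) ^ 2) ∧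
    ∀ a b : ZMod d, ov f a b ≠ 0 := by
  have h1 : Dense (⋂ q : ZMod d × ZMod d, {f : ZMod d → ℂ | ov f q.1 q.2 ≠ 0}) := by
    apply dense_iInter_of_isOpen
    · intro q
      exact isOpen_ne_fun (continuous_ov q.1 q.2) continuous_const
    · intro q
      exact dense_ov_ne q.1 q.2
  have hc : Continuous fun f : ZMod d → ℂ => ∑ j, ‖f j‖ ^ 2 := by fun_prop
  have h2 : IsOpen {f : ZMod d → ℂ | 0 < ∑ j, ‖f j‖ ^ 2 ∧ ∀ q : ZMod d × ZMod d, q ≠ (0, 0) →
      ‖ov f q.1 q.2‖ ^ 2 * ((d : ℝ) + 1) < 96 * (∑ j, ‖f j‖ ^ 2) ^ 2} := by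
    have hset : {f : ZMod d → ℂ | 0 < ∑ j, ‖f j‖ ^ 2 ∧ ∀ q : ZMod d × ZMod d, q ≠ (0, 0) →
      ‖ov f q.1 q.2‖ ^ 2 * ((d : ℝ) + 1) < 96 * (∑ j, ‖f j‖ ^ 2) ^ 2} =
      {f : ZMod d → ℂ | 0 < ∑ j, ‖f j‖ ^ 2} ∩ ⋂ q : ZMod d × ZMod d, {f : ZMod d → ℂ | q ≠ (0, 0) →
      ‖ov f q.1 q.2‖ ^ 2 * ((d : ℝ) + 1) < 96 * (∑ j, ‖f j‖ ^ 2) ^ 2} := by
        ext f; simp only [Set.mem_ofPred_eq, Set.mem_iInter, Set.mem_inter_iff]
    rw [hset]
    apply IsOpen.inter (isOpen_lt continuous_const hc)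
    apply isOpen_iInter_of_finite
    intro q
    by_cases hq : q = (0, 0)
    · have : {f : ZMod d → ℂ | q ≠ (0, 0) →
        ‖ov f q.1 q.2‖ ^ 2 * ((d : ℝ) + 1) < 96 * (∑ j, ‖f j‖ ^ 2) ^ 2} = Set.univ := by
        ext f; simp [hq]
      rw [this]; exact isOpen_univ
    · have : {f : ZMod d → ℂ | q ≠ (0, 0) →
        ‖ov f q.1 q.2‖ ^ 2 * ((d : ℝ) + 1) < 96 * (∑ j, ‖f j‖ ^ 2) ^ 2} =
        {f : ZMod d → ℂ | ‖ov f q.1 q.2‖ ^ 2 * ((d : ℝ) + 1) < 96 * (∑ j, ‖f j‖ ^ 2) ^ 2} := by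
        ext f; simp only [Set.mem_ofPred_eq]; exact ⟨fun h => h hq, fun h _ => h⟩
      rw [this]
      exact isOpen_lt (((continuous_ov q.1 q.2).norm.pow 2).mul continuous_const)
        (continuous_const.mul (hc.pow 2))
  obtain ⟨f, hf1, hf2⟩ := exists_strict d
  obtain ⟨g, hg1, hg2⟩ := h1.exists_mem_open h2 ⟨f, hf1, fun q hq => hf2 q.1 q.2 hq⟩
  refine ⟨g, hg2.1, fun a b hab => hg2.2 (a, b) hab, fun a b => ?_⟩
  exact Set.mem_iInter.1 hg1 (a, b)

theorem ov_smul (c : ℂ) (f : ZMod d → ℂ) (a b : ZMod d) :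
    ov (c • f) a b = ((‖c‖ ^ 2 : ℝ) : ℂ) * ov f a b := by
  unfold ov
  rw [mul_sum]
  refine sum_congr rfl fun j _ => ?_
  rw [Pi.smul_apply, Pi.smul_apply, smul_eq_mul, smul_eq_mul, map_mul, ← conj_mul_self']
  ring

/-- unit vector with small nonzero overlaps -/
theorem exists_unit (d : ℕ) [NeZero d] : ∃ f : ZMod d → ℂ, ∑ j, ‖f j‖ ^ 2 = 1 ∧
    (∀ a b : ZMod d, (a, b) ≠ (0, 0) → ‖ov f a b‖ ^ 2 < 96 / ((d : ℝ) + 1)) ∧
    ∀ a b : ZMod d, ov f a b ≠ 0 := by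
  obtain ⟨f, h1, h2, h3⟩ := exists_strict_ne d
  set N : ℝ := ∑ j, ‖f j‖ ^ 2 with hN
  set c : ℂ := ((1 / Real.sqrt N : ℝ) : ℂ) with hc
  have hs : 0 < Real.sqrt N := Real.sqrt_pos.2 h1
  have hcn : ‖c‖ ^ 2 = 1 / N := by
    rw [hc, Complex.norm_real, Real.norm_eq_abs, sq_abs, div_pow, one_pow, Real.sq_sqrt h1.le]
  refine ⟨c • f, ?_, fun a b hab => ?_, fun a b => ?_⟩
  · have : ∀ j, ‖(c • f) j‖ ^ 2 = (1 / N) * ‖f j‖ ^ 2 := by
      intro j
      rw [Pi.smul_apply, smul_eq_mul, norm_mul, mul_pow, hcn]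
    rw [sum_congr rfl fun j _ => this j, ← mul_sum, ← hN]
    field_simp
  · rw [ov_smul, hcn, norm_mul, mul_pow, Complex.norm_real, Real.norm_eq_abs, sq_abs, div_pow,
      one_pow, lt_div_iff₀ (by positivity)]
    have h4 := h2 a b hab
    have h5 : 1 / N ^ 2 * ‖ov f a b‖ ^ 2 * ((d : ℝ) + 1) =
      (‖ov f a b‖ ^ 2 * ((d : ℝ) + 1)) / N ^ 2 := by ring
    rw [h5, div_lt_iff₀ (by positivity)]
    exact h4
  · rw [ov_smul, hcn]
    apply mul_ne_zero _ (h3 a b)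
    exact_mod_cast (by positivity : (1 / N : ℝ) ≠ 0)

end Pool.Agent.U900.NS
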