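import Pool.Agent.R503.SIC.Exc2
import Pool.Agent.U900.NS.Pert

set_option autoImplicit false

/-! # Prime dimensions: the Alltop vector with one spike -/

namespace Pool.Agent.U900.NS

open Finset Complex Pool.Agent.R503.SIC
open scoped ComplexConjugate

variable {d : ℕ} [NeZero d]

/-- cubic chirp plus a spike of size `t` at the origin -/
noncomputable def spike (t : ℝ) (j : ZMod d) : ℂ := e (j ^ 3) + if j = 0 then (t : ℂ) else 0

theorem spike_ov (t : ℝ) (a b : ZMod d) : ov (spike t) a b =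
    e (-a ^ 3) * ∑ j : ZMod d, e ((-3 * a) * j ^ 2 + (b - 3 * a ^ 2) * j) +
      (t : ℂ) * (conj (e (a ^ 3)) + e (b * -a) * e ((-a) ^ 3)) +
      if a = 0 then (t : ℂ) ^ 2 else 0 := by
  unfold ov spike
  have h1 : ∀ j : ZMod d, conj (e ((j + a) ^ 3) + if j + a = 0 then (t : ℂ) else 0) *
      (e (b * j) * (e (j ^ 3) + if j = 0 then (t : ℂ) else 0)) =
      e (-a ^ 3) * e ((-3 * a) * j ^ 2 + (b - 3 * a ^ 2) * j) +
      (if j = 0 then conj (e ((j + a) ^ 3)) * (e (b * j) * (t : ℂ)) else 0) +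
      (if j = -a then (t : ℂ) * (e (b * j) * e (j ^ 3)) else 0) +
      (if j = 0 then (if j = -a then (t : ℂ) * (e (b * j) * t) else 0) else 0) := by
    intro j
    have h2 : (j + a = 0) = (j = -a) := propext eq_neg_iff_add_eq_zero.symm
    have h3 : conj (e ((j + a) ^ 3)) * (e (b * j) * e (j ^ 3)) =
        e (-a ^ 3) * e ((-3 * a) * j ^ 2 + (b - 3 * a ^ 2) * j) := by
      rw [conj_e, ← e_add, ← e_add, ← e_add]; congr 1; ring
    rw [map_add, ← h3]
    simp only [h2]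
    split_ifs <;> (try simp only [Complex.conj_ofReal, map_zero]) <;> ring
  rw [sum_congr rfl fun j _ => h1 j, sum_add_distrib, sum_add_distrib, sum_add_distrib, ← mul_sum]
  rw [sum_ite_eq' univ (0 : ZMod d), sum_ite_eq' univ (-a), sum_ite_eq' univ (0 : ZMod d)]
  simp only [mem_univ, if_true]
  have h4 : ((0 : ZMod d) = -a) = (a = 0) := propext ⟨fun h => by
    have := congrArg Neg.neg h; simpa using this.symm, fun h => by rw [h]; simp⟩
  simp only [h4, mul_zero, e_zero, zero_add]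
  split_ifs <;> ring

theorem spike_norm (t : ℝ) : ∑ j : ZMod d, ‖spike t j‖ ^ 2 = d + 2 * t + t ^ 2 := by
  have h1 : ∀ j : ZMod d, ‖spike t j‖ ^ 2 = 1 + if j = 0 then (2 * t + t ^ 2) else 0 := by
    intro j
    unfold spike
    split_ifs with h
    · rw [h]
      have h2 : (0 : ZMod d) ^ 3 = 0 := by ring
      rw [h2, e_zero]
      have h3 : (1 + (t : ℂ)) = ((1 + t : ℝ) : ℂ) := by push_cast; rfl
      rw [h3, Complex.norm_real, Real.norm_eq_abs, sq_abs]; ring
    · rw [add_zero, norm_e]; norm_num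
  rw [sum_congr rfl fun j _ => h1 j, sum_add_distrib, sum_ite_eq' univ (0 : ZMod d)]
  simp only [mem_univ, if_true, sum_const, card_univ, ZMod.card, nsmul_eq_mul, mul_one]
  ring

/-- real inequality for the main rows -/
theorem real_ineq {y M : ℝ} (hy : 4 / 3 ≤ y) (h1 : M ≤ y ^ 2 + 2 * y) (h2 : y ^ 2 - 2 * y ≤ M)
    (hM : 0 ≤ M) : |(y ^ 4 + 1) * (M ^ 2 / (y ^ 4 + y ^ 2) ^ 2) - 1| ≤ 7 / y := by
  have hy0 : 0 < y := by linarith
  have hden : 0 < (y ^ 4 + y ^ 2) ^ 2 := by positivity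
  rw [abs_le]
  constructor
  · -- lower bound
    by_cases h7 : y < 7
    · have h3 : 1 ≤ 7 / y := by rw [le_div_iff₀ hy0]; linarith
      have h4 : 0 ≤ (y ^ 4 + 1) * (M ^ 2 / (y ^ 4 + y ^ 2) ^ 2) := by positivity
      linarith
    · push Not at h7
      have h3 : 0 ≤ y ^ 2 - 2 * y := by nlinarith
      have h4 : (y ^ 2 - 2 * y) ^ 2 ≤ M ^ 2 := pow_le_pow_left₀ h3 h2 2
      have h5 : 1 - 7 / y ≤ (y ^ 4 + 1) * (M ^ 2 / (y ^ 4 + y ^ 2) ^ 2) := by
        rw [mul_div_assoc', le_div_iff₀ hden]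
        have h6 : (1 - 7 / y) = (y - 7) / y := by field_simp
        rw [h6, div_mul_eq_mul_div, div_le_iff₀ hy0]
        have h8 : (y ^ 4 + 1) * (y ^ 2 - 2 * y) ^ 2 * y ≤ (y ^ 4 + 1) * M ^ 2 * y := by
          apply mul_le_mul_of_nonneg_right _ hy0.le
          apply mul_le_mul_of_nonneg_left h4; positivity
        refine le_trans ?_ h8
        nlinarith [pow_pos hy0 3, pow_pos hy0 4, pow_pos hy0 5, pow_pos hy0 6, pow_pos hy0 7,
          pow_pos hy0 8, pow_pos hy0 2]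
      linarith
  · -- upper bound
    have h3 : M ^ 2 ≤ (y ^ 2 + 2 * y) ^ 2 := pow_le_pow_left₀ hM h1 2
    have h5 : (y ^ 4 + 1) * (M ^ 2 / (y ^ 4 + y ^ 2) ^ 2) ≤ 1 + 7 / y := by
      rw [mul_div_assoc', div_le_iff₀ hden]
      have h6 : (1 + 7 / y) = (y + 7) / y := by field_simp
      rw [h6, div_mul_eq_mul_div, le_div_iff₀ hy0]
      have h8 : (y ^ 4 + 1) * M ^ 2 * y ≤ (y ^ 4 + 1) * (y ^ 2 + 2 * y) ^ 2 * y := by
        apply mul_le_mul_of_nonneg_right _ hy0.le
        apply mul_le_mul_of_nonneg_left h3; positivity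
      refine le_trans h8 ?_
      nlinarith [pow_pos hy0 3, pow_pos hy0 4, pow_pos hy0 5, pow_pos hy0 6, pow_pos hy0 7,
          pow_pos hy0 8, pow_pos hy0 2]
    linarith

/-- the size of the spike: `(1 + t) ^ 2 = 1 + √ d` -/
noncomputable def size (d : ℕ) : ℝ := Real.sqrt (1 + Real.sqrt d) - 1

theorem size_eq (d : ℕ) : 2 * size d + size d ^ 2 = Real.sqrt d := by
  unfold size
  have h := Real.sq_sqrt (show (0 : ℝ) ≤ 1 + Real.sqrt d by positivity)
  nlinarith

theorem size_nonneg (d : ℕ) : 0 ≤ size d := by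
  unfold size
  have : 1 ≤ Real.sqrt (1 + Real.sqrt d) := by
    rw [Real.one_le_sqrt]
    have := Real.sqrt_nonneg (d : ℝ)
    linarith
  linarith

/-- overlaps of the spiked Alltop vector -/
theorem spike_bounds (hp : d.Prime) (hp5 : 5 ≤ d) (a b : ZMod d) (hab : (a, b) ≠ (0, 0)) :
    (a = 0 → ‖ov (spike (size d)) a b‖ = Real.sqrt d) ∧
    ‖ov (spike (size d)) a b‖ ≤ Real.sqrt d + 2 * size d ∧
    Real.sqrt d - 2 * size d ≤ ‖ov (spike (size d)) a b‖ := by
  have ht := size_nonneg d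
  have hx := Real.sqrt_nonneg (d : ℝ)
  rw [spike_ov]
  by_cases ha : a = 0
  · have hb : b ≠ 0 := fun hb => hab (by rw [ha, hb])
    subst ha
    have h3 : ∑ j : ZMod d, e ((-3 * 0) * j ^ 2 + (b - 3 * 0 ^ 2) * j) = 0 := by
      have h4 := sum_e b
      rw [if_neg hb] at h4
      rw [← h4]
      refine Finset.sum_congr rfl fun j _ => ?_
      congr 1; ring
    rw [h3, if_pos rfl]
    have h5 : (0 : ZMod d) ^ 3 = 0 := by ring
    have h6 : (-(0 : ZMod d)) ^ 3 = 0 := by ring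
    rw [h5, h6, neg_zero, mul_zero b, e_zero, map_one]
    have h7 : (1 : ℂ) * 0 + ((size d : ℝ) : ℂ) * (1 + 1 * 1) + ((size d : ℝ) : ℂ) ^ 2 =
        ((2 * size d + size d ^ 2 : ℝ) : ℂ) := by push_cast; ring
    rw [h7, size_eq, Complex.norm_real, Real.norm_eq_abs, abs_of_nonneg hx]
    exact ⟨fun _ => rfl, by linarith, by linarith⟩
  · rw [if_neg ha, add_zero]
    have := Fact.mk hp
    have h3 : (3 : ZMod d) ≠ 0 := by
      intro h
      have h1 : ((3 : ℕ) : ZMod d) = 0 := by exact_mod_cast h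
      rw [ZMod.natCast_eq_zero_iff] at h1
      have := Nat.le_of_dvd (by norm_num) h1
      omega
    have hA : -3 * a ≠ 0 := mul_ne_zero (neg_ne_zero.2 h3) ha
    have h4 := quad hp (by omega) hA (b - 3 * a ^ 2)
    have h5 : ‖e (-a ^ 3) * ∑ j : ZMod d, e ((-3 * a) * j ^ 2 + (b - 3 * a ^ 2) * j)‖ =
        Real.sqrt d := by
      rw [norm_mul, norm_e, one_mul, ← h4, Real.sqrt_sq (norm_nonneg _)]
    have h6 : ‖((size d : ℝ) : ℂ) * (conj (e (a ^ 3)) + e (b * -a) * e ((-a) ^ 3))‖ ≤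
        2 * size d := by
      rw [norm_mul, Complex.norm_real, Real.norm_eq_abs, abs_of_nonneg ht]
      have h7 : ‖conj (e (a ^ 3)) + e (b * -a) * e ((-a) ^ 3)‖ ≤ 2 := by
        refine (norm_add_le _ _).trans ?_
        rw [Complex.norm_conj, norm_mul, norm_e, norm_e, norm_e]; norm_num
      nlinarith
    refine ⟨fun h => absurd h ha, ?_, ?_⟩
    · exact (norm_add_le _ _).trans (by rw [h5]; linarith)
    · have h8 := norm_sub_norm_le (e (-a ^ 3) *
        ∑ j : ZMod d, e ((-3 * a) * j ^ 2 + (b - 3 * a ^ 2) * j))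
        (-(((size d : ℝ) : ℂ) * (conj (e (a ^ 3)) + e (b * -a) * e ((-a) ^ 3))))
      rw [sub_neg_eq_add, norm_neg, h5] at h8
      linarith

/-- **Prime dimensions.** -/
theorem exists_prime (hp : d.Prime) (hp5 : 5 ≤ d) : ∃ f : ZMod d → ℂ, ∑ j, ‖f j‖ ^ 2 = 1 ∧
    (∀ a b : ZMod d, (a, b) ≠ (0, 0) →
      |((d : ℝ) + 1) * ‖ov f a b‖ ^ 2 - 1| ≤ 7 / (d : ℝ) ^ (1 / 4 : ℝ)) ∧
    ∀ a b : ZMod d, ov f a b ≠ 0 := by
  have hd5 : (5 : ℝ) ≤ d := by exact_mod_cast hp5
  have hd0 : (0 : ℝ) < d := by linarith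
  set y : ℝ := (d : ℝ) ^ (1 / 4 : ℝ) with hy
  have hy0 : 0 < y := Real.rpow_pos_of_pos hd0 _
  have hy4 : y ^ 4 = d := by
    rw [hy, ← Real.rpow_natCast, ← Real.rpow_mul hd0.le]; norm_num
  have hy2 : Real.sqrt d = y ^ 2 := by
    rw [← hy4, show y ^ 4 = (y ^ 2) ^ 2 by ring, Real.sqrt_sq (by positivity)]
  have hy43 : 4 / 3 ≤ y := by
    by_contra hcon
    push Not at hcon
    have : y ^ 4 < (4 / 3) ^ 4 := pow_lt_pow_left₀ hcon hy0.le (by norm_num)
    rw [hy4] at this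
    norm_num at this
    linarith
  have ht := size_nonneg d
  have hteq := size_eq d
  rw [hy2] at hteq
  have hty : size d ≤ y := by
    nlinarith
  have hpos : 0 < Real.sqrt d - 2 * size d := by
    rw [hy2]
    have h1 : 0 < size d := by
      rcases ht.lt_or_eq with h | h
      · exact h
      · rw [← h] at hteq; nlinarith
    nlinarith
  have hN : ∑ j : ZMod d, ‖spike (size d) j‖ ^ 2 = y ^ 4 + y ^ 2 := by
    rw [spike_norm, hy4, ← hteq]; ring
  set N : ℝ := y ^ 4 + y ^ 2 with hNdef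
  have hN0 : 0 < N := by positivity
  set c : ℂ := ((1 / Real.sqrt N : ℝ) : ℂ) with hc
  have hcn : ‖c‖ ^ 2 = 1 / N := by
    rw [hc, Complex.norm_real, Real.norm_eq_abs, sq_abs, div_pow, one_pow, Real.sq_sqrt hN0.le]
  refine ⟨c • spike (size d), ?_, fun a b hab => ?_, fun a b => ?_⟩
  · have : ∀ j : ZMod d, ‖(c • spike (size d)) j‖ ^ 2 = (1 / N) * ‖spike (size d) j‖ ^ 2 := by
      intro j
      rw [Pi.smul_apply, smul_eq_mul, norm_mul, mul_pow, hcn]
    rw [sum_congr rfl fun j _ => this j, ← mul_sum, hN]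
    field_simp
  · rw [ov_smul, hcn, norm_mul, mul_pow, Complex.norm_real, Real.norm_eq_abs, sq_abs]
    obtain ⟨_, h2, h3⟩ := spike_bounds hp hp5 a b hab
    rw [hy2] at h2 h3
    have h4 := real_ineq (M := ‖ov (spike (size d)) a b‖) hy43 (by linarith) (by linarith)
      (norm_nonneg _)
    have h5 : ((d : ℝ) + 1) * ((1 / N) ^ 2 * ‖ov (spike (size d)) a b‖ ^ 2) =
        (y ^ 4 + 1) * (‖ov (spike (size d)) a b‖ ^ 2 / (y ^ 4 + y ^ 2) ^ 2) := by
      rw [← hy4, ← hNdef]; field_simp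
    rw [h5]
    exact h4
  · rw [ov_smul, hcn]
    apply mul_ne_zero
    · exact_mod_cast (by positivity : (1 / N : ℝ) ≠ 0)
    · by_cases hab : (a, b) = (0, 0)
      · rw [Prod.mk.injEq] at hab
        rw [hab.1, hab.2]
        have h0 : ov (spike (size d)) (0 : ZMod d) 0 =
            ((∑ j : ZMod d, ‖spike (size d) j‖ ^ 2 : ℝ) : ℂ) := by
          unfold ov
          push_cast
          refine sum_congr rfl fun j _ => ?_
          rw [add_zero, zero_mul, e_zero, one_mul, conj_mul_self']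
          push_cast
          rfl
        rw [h0, hN]
        exact_mod_cast hN0.ne'
      · intro h0
        have := (spike_bounds hp hp5 a b hab).2.2
        rw [h0, norm_zero] at this
        linarith

end Pool.Agent.U900.NS
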