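import Pool.Agent.N655.WH.Core

set_option autoImplicit false

/-! # Smooth quadratic exponential sums twisted by an arbitrary frequency -/

namespace Pool.Agent.U900.NS

open Finset Complex Pool.Agent.R503.SIC
open scoped ComplexConjugate

/-- summation by parts identity -/
theorem sum_diff_sq (g : ℕ → ℝ) (M : ℕ) (h0 : g 0 = 0) (hM : g M = 0) (r : ℝ) :
    ∑ n ∈ range M, (g (n + 1) - r * g n) ^ 2 =
      r * ∑ n ∈ range M, (g (n + 1) - g n) ^ 2 + (1 - r) ^ 2 * ∑ n ∈ range M, g n ^ 2 := by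
  have h1 : ∑ n ∈ range M, g (n + 1) ^ 2 = ∑ n ∈ range M, g n ^ 2 := by
    have h2 := sum_range_succ' (fun n => g n ^ 2) M
    have h3 := sum_range_succ (fun n => g n ^ 2) M
    simp only [h0, hM] at h2 h3
    linarith
  have h4 : ∑ n ∈ range M, (g (n + 1) - r * g n) ^ 2 =
      r * ∑ n ∈ range M, (g (n + 1) - g n) ^ 2 + (1 - r) * ∑ n ∈ range M, g (n + 1) ^ 2
        + (r ^ 2 - r) * ∑ n ∈ range M, g n ^ 2 := by
    rw [mul_sum, mul_sum, mul_sum, ← sum_add_distrib, ← sum_add_distrib]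
    refine sum_congr rfl fun n _ => ?_
    ring
  rw [h4, h1]
  ring

variable {p : ℕ} [NeZero p]

theorem sum_diff_norm (g : ℕ → ℝ) (h0 : g 0 = 0) (hp : g (p - 1) = 0) (h2 : 2 ≤ p) (W : ℂ)
    (hW : ‖W‖ = 1) (r : ℝ) :
    ∑ x : ZMod p, ‖(g x.val : ℂ) * W ^ x.val - (r * W) * ((g (x - 1).val : ℂ) *
      W ^ (x - 1).val)‖ ^ 2 = ∑ n ∈ range (p - 1), (g (n + 1) - r * g n) ^ 2 := by
  haveI : Fact (1 < p) := ⟨h2⟩
  rw [← N655.WH.sum_range_cast (fun x : ZMod p => ‖(g x.val : ℂ) * W ^ x.val - (r * W) *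
    ((g (x - 1).val : ℂ) * W ^ (x - 1).val)‖ ^ 2)]
  obtain ⟨q, rfl⟩ : ∃ q, p = q + 1 := ⟨p - 1, by omega⟩
  rw [sum_range_succ', Nat.add_sub_cancel]
  have h3 : ((0 : ℕ) : ZMod (q + 1)).val = 0 := by simp
  have h4 : (((0 : ℕ) : ZMod (q + 1)) - 1).val = q := by
    rw [Nat.cast_zero, zero_sub]
    rw [ZMod.val_neg_one]
  rw [h3, h4]
  rw [Nat.add_sub_cancel] at hp
  rw [h0, hp]
  simp only [ofReal_zero, zero_mul, mul_zero, sub_zero, norm_zero]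
  rw [zero_pow two_ne_zero, add_zero]
  refine sum_congr rfl fun n hn => ?_
  rw [mem_range] at hn
  have h5 : (((n + 1 : ℕ)) : ZMod (q + 1)).val = n + 1 := ZMod.val_cast_of_lt (by omega)
  have h6 : ((((n + 1 : ℕ)) : ZMod (q + 1)) - 1).val = n := by
    have : (((n + 1 : ℕ)) : ZMod (q + 1)) - 1 = ((n : ℕ) : ZMod (q + 1)) := by push_cast; ring
    rw [this, ZMod.val_cast_of_lt (by omega)]
  rw [h5, h6]
  have h7 : (g (n + 1) : ℂ) * W ^ (n + 1) - (r * W) * ((g n : ℂ) * W ^ n) =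
      ((g (n + 1) - r * g n : ℝ) : ℂ) * W ^ (n + 1) := by
    push_cast; ring
  rw [h7, norm_mul, norm_pow, hW, one_pow, mul_one, Complex.norm_real, Real.norm_eq_abs, sq_abs]

/-- the numerical part -/
theorem numeric {p : ℕ} (hp : 100 ≤ p) {d : ℝ} (hd : 0 < d) (hpd : (p : ℝ) ≤ 4 * d) {S c : ℝ}
    (hS : 0 ≤ S) (hc : 0 ≤ c) {r : ℝ} (hr : r = 1 - 6 / p) {Z : ℝ} (hZ : 1 - r ^ p ≤ Z)
    (h : Z ^ 2 * S ≤ (∑ l ∈ range p, (r ^ 2) ^ l) * (p * (r * ((Real.pi / (2 * d)) ^ 2 * c) +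
      (1 - r) ^ 2 * c))) : S ≤ 6.33 * c := by
  have hp0 : (0 : ℝ) < p := by positivity
  have hp5 : (100 : ℝ) ≤ p := by exact_mod_cast hp
  have h6 : 6 / (p : ℝ) ≤ 6 / 100 := by
    apply div_le_div_of_nonneg_left <;> linarith
  have h60 : 0 < 6 / (p : ℝ) := by positivity
  have hr1 : r < 1 := by rw [hr]; linarith
  have hr0 : 0 < r := by rw [hr]; linarith
  -- lower bound for `Z`
  have he : Real.exp (-6) ≤ 1 / 400 := by
    rw [Real.exp_neg, inv_eq_one_div]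
    apply one_div_le_one_div_of_le (by norm_num)
    have h1 : (2.718 : ℝ) < Real.exp 1 := by
      have := Real.exp_one_gt_d9; linarith
    have h2 : Real.exp 6 = Real.exp 1 ^ 6 := by rw [← Real.exp_nat_mul]; norm_num
    rw [h2]
    have h3 : (2.718 : ℝ) ^ 6 ≤ Real.exp 1 ^ 6 := pow_le_pow_left₀ (by norm_num) h1.le 6
    norm_num at h3 ⊢
    linarith
  have hrp : r ^ p ≤ 1 / 400 := by
    rw [hr]
    exact (Real.one_sub_div_pow_le_exp_neg (by linarith)).trans he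
  have hZ1 : 399 / 400 ≤ Z := by linarith
  have hZ2 : (399 / 400 : ℝ) ^ 2 ≤ Z ^ 2 := pow_le_pow_left₀ (by norm_num) hZ1 2
  -- geometric sum
  have hgeo : (1 - r ^ 2) * ∑ l ∈ range p, (r ^ 2) ^ l ≤ 1 := by
    rw [mul_neg_geom_sum]
    have : 0 ≤ (r ^ 2) ^ p := by positivity
    linarith
  have hG0 : 0 ≤ ∑ l ∈ range p, (r ^ 2) ^ l := sum_nonneg fun _ _ => by positivity
  set G := ∑ l ∈ range p, (r ^ 2) ^ l with hG
  have hpi : Real.pi ^ 2 ≤ 9.8697 := by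
    have h1 := Real.pi_lt_d4
    have h2 := Real.pi_pos
    nlinarith
  -- `p * (1 - r) = 6`
  have hpr : (p : ℝ) * (1 - r) = 6 := by rw [hr]; field_simp; ring
  have hG1 : G * (6 * (1 + r)) ≤ p := by
    have h1 : (p : ℝ) * ((1 - r ^ 2) * G) = G * (6 * (1 + r)) := by
      calc (p : ℝ) * ((1 - r ^ 2) * G) = G * ((p * (1 - r)) * (1 + r)) := by ring
        _ = _ := by rw [hpr]
    rw [← h1]
    have := mul_le_mul_of_nonneg_left hgeo hp0.le
    linarith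
  -- main
  have h1 : (p : ℝ) ^ 2 * (Real.pi / (2 * d)) ^ 2 ≤ 4 * Real.pi ^ 2 := by
    rw [div_pow, mul_div_assoc', div_le_iff₀ (by positivity)]
    have h2 : (p : ℝ) ^ 2 ≤ (4 * d) ^ 2 := pow_le_pow_left₀ hp0.le hpd 2
    nlinarith [Real.pi_pos, mul_le_mul_of_nonneg_right h2 (sq_nonneg Real.pi)]
  have h2 : (p : ℝ) ^ 2 * (r * (Real.pi / (2 * d)) ^ 2 + (1 - r) ^ 2) ≤ 37.7394 * (1 + r) := by
    have h3 : (p : ℝ) ^ 2 * (r * (Real.pi / (2 * d)) ^ 2 + (1 - r) ^ 2) =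
        r * ((p : ℝ) ^ 2 * (Real.pi / (2 * d)) ^ 2) + ((p : ℝ) * (1 - r)) ^ 2 := by ring
    rw [h3, hpr]
    nlinarith
  have h3 : Z ^ 2 * S ≤ 6.2899 * c := by
    refine h.trans ?_
    have h4 : G * (p * (r * ((Real.pi / (2 * d)) ^ 2 * c) + (1 - r) ^ 2 * c)) * (6 * (1 + r)) =
      (G * (6 * (1 + r))) * (p * (r * (Real.pi / (2 * d)) ^ 2 + (1 - r) ^ 2) * c) := by ring
    have h5 : (G * (6 * (1 + r))) * (p * (r * (Real.pi / (2 * d)) ^ 2 + (1 - r) ^ 2) * c) ≤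
        p * (p * (r * (Real.pi / (2 * d)) ^ 2 + (1 - r) ^ 2) * c) := by
      apply mul_le_mul_of_nonneg_right hG1
      positivity
    have h6 : p * (p * (r * (Real.pi / (2 * d)) ^ 2 + (1 - r) ^ 2) * c) =
        ((p : ℝ) ^ 2 * (r * (Real.pi / (2 * d)) ^ 2 + (1 - r) ^ 2)) * c := by ring
    have h7 := mul_le_mul_of_nonneg_right h2 hc
    have h8 : (0 : ℝ) < 6 * (1 + r) := by positivity
    rw [← mul_le_mul_iff_left₀ h8, h4]
    calc _ ≤ _ := h5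
      _ = _ := h6
      _ ≤ _ := h7
      _ = (6.2899 * c) * (6 * (1 + r)) := by ring
  have h4 : (399 / 400 : ℝ) ^ 2 * S ≤ Z ^ 2 * S := mul_le_mul_of_nonneg_right hZ2 hS
  nlinarith

end Pool.Agent.U900.NS
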