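import Pool.Agent.U900.NS.Window

set_option autoImplicit false

/-! # The vector and its overlaps -/

namespace Pool.Agent.U900.NS

open Finset Complex Pool.Agent.R503.SIC
open scoped ComplexConjugate

variable {d p : ℕ} [NeZero p]

/-- window times linear phase times cubic chirp modulo `p` -/
noncomputable def A (d : ℕ) {p : ℕ} [NeZero p] (z : ℂ) (t : ZMod p) (n : ℤ) : ℂ :=
  (w d n : ℂ) * z ^ n * e (t * (n : ZMod p) ^ 3)

/-- the vector: the periodization of `A` -/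
noncomputable def psi (d : ℕ) {p : ℕ} [NeZero p] (z : ℂ) (t : ZMod p) (x : ZMod d) : ℂ :=
  A d z t x.val + A d z t (x.val + d)

theorem A_of_nonpos (z : ℂ) (t : ZMod p) {n : ℤ} (h : n ≤ 0) : A d z t n = 0 := by
  unfold A; rw [w_of_nonpos d h]; simp

theorem A_of_ge (hd : 0 < d) (z : ℂ) (t : ZMod p) {n : ℤ} (h : 2 * (d : ℤ) ≤ n) :
    A d z t n = 0 := by
  unfold A; rw [w_of_ge hd h]; simp

variable [NeZero d]

/-- the correlation sums -/
noncomputable def T (d : ℕ) [NeZero d] {p : ℕ} [NeZero p] (z : ℂ) (t : ZMod p) (s : ℤ)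
    (b : ZMod d) : ℂ :=
  ∑ n ∈ range (2 * d), conj (A d z t (n + s)) * (A d z t n * e (b * (n : ZMod d)))

theorem e_mul_nat (b : ZMod d) (n : ℕ) : e (b * (n : ZMod d)) = e b ^ n := by
  induction n with
  | zero => simp [e_zero]
  | succ n ih => rw [Nat.cast_succ, mul_add, mul_one, e_add, ih, pow_succ]

theorem conj_zpow_mul {z : ℂ} (hz : ‖z‖ = 1) (n s : ℤ) : conj (z ^ (n + s)) * z ^ n = z ^ (-s) := by
  have hz0 : z ≠ 0 := by
    intro h; rw [h, norm_zero] at hz; exact zero_ne_one hz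
  have h1 : conj z = z⁻¹ := by
    rw [Complex.inv_def, Complex.normSq_eq_norm_sq, hz]; simp
  rw [map_zpow₀, h1, inv_zpow', ← zpow_add₀ hz0]
  congr 1
  ring

theorem T_eq {z : ℂ} (hz : ‖z‖ = 1) (t : ZMod p) (ht : 3 * t = 1) (s : ℤ) (b : ZMod d) :
    T d z t s b = z ^ (-s) * e (-(t * (s : ZMod p) ^ 3)) *
      ∑ n ∈ range (2 * d), (gg d s n : ℂ) * (e b) ^ n *
      e (-(s : ZMod p) * (n : ZMod p) ^ 2 + -(s : ZMod p) ^ 2 * (n : ZMod p)) := by
  unfold T
  rw [mul_sum]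
  refine sum_congr rfl fun n _ => ?_
  unfold A gg
  rw [e_mul_nat, map_mul, map_mul, conj_e, Complex.conj_ofReal]
  have h1 : e (-(t * (((n : ℤ) + s : ℤ) : ZMod p) ^ 3)) * e (t * ((n : ℤ) : ZMod p) ^ 3) =
      e (-(t * (s : ZMod p) ^ 3)) * e (-(s : ZMod p) * (n : ZMod p) ^ 2 +
        -(s : ZMod p) ^ 2 * (n : ZMod p)) := by
    rw [← e_add, ← e_add]
    congr 1
    push_cast
    linear_combination (-(s : ZMod p) * (n : ZMod p) ^ 2 - (s : ZMod p) ^ 2 * (n : ZMod p)) * ht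
  have h2 := conj_zpow_mul hz (n : ℤ) s
  calc (w d ((n : ℤ) + s) : ℂ) * conj (z ^ ((n : ℤ) + s)) *
        e (-(t * (((n : ℤ) + s : ℤ) : ZMod p) ^ 3)) *
        ((w d (n : ℤ) : ℂ) * z ^ (n : ℤ) * e (t * ((n : ℤ) : ZMod p) ^ 3) * e b ^ n)
      = ((w d ((n : ℤ) + s) : ℂ) * (w d (n : ℤ) : ℂ) * e b ^ n) *
        (conj (z ^ ((n : ℤ) + s)) * z ^ (n : ℤ)) *
        (e (-(t * (((n : ℤ) + s : ℤ) : ZMod p) ^ 3)) * e (t * ((n : ℤ) : ZMod p) ^ 3)) := by ring
    _ = _ := by rw [h2, h1]; push_cast; ring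

theorem T_bound (hd : 95 ≤ d) (hp : p.Prime) (h2d : 2 * d < p) (h4d : p ≤ 4 * d) {z : ℂ}
    (hz : ‖z‖ = 1) (t : ZMod p)
    (ht : 3 * t = 1) {s : ℤ} (hs0 : s ≠ 0) (hs1 : -(2 * (d : ℤ)) < s) (hs2 : s < 2 * (d : ℤ))
    (b : ZMod d) : ‖T d z t s b‖ ^ 2 ≤ 6.33 * cc d s := by
  have : Fact p.Prime := ⟨hp⟩
  rw [T_eq hz t ht, norm_mul, norm_mul, norm_e, norm_zpow, hz, one_zpow, one_mul, one_mul]
  apply quad_bound hd h2d h4d s (e b) (norm_e b)
  rw [isUnit_iff_ne_zero]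
  apply mul_ne_zero
  · intro h
    have h1 : ((2 : ℕ) : ZMod p) = 0 := by exact_mod_cast h
    rw [ZMod.natCast_eq_zero_iff] at h1
    have := Nat.le_of_dvd (by norm_num) h1
    omega
  · rw [neg_ne_zero]
    intro h
    rw [ZMod.intCast_zmod_eq_zero_iff_dvd] at h
    have h1 : (p : ℤ) ∣ |s| := (dvd_abs _ _).2 h
    have h2 := Int.le_of_dvd (abs_pos.2 hs0) h1
    have h3 : |s| < 2 * (d : ℤ) := abs_lt.2 ⟨by omega, hs2⟩
    omega

theorem sum_zmod {M : Type*} [AddCommMonoid M] (f : ZMod d → M) :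
    ∑ x, f x = ∑ v ∈ range d, f (v : ZMod d) := by
  symm
  refine sum_bij' (fun l _ => (l : ZMod d)) (fun j _ => j.val) (fun _ _ => mem_univ _)
    (fun j _ => mem_range.2 (ZMod.val_lt j)) ?_ ?_ (fun _ _ => rfl)
  · intro l hl
    exact ZMod.val_cast_of_lt (mem_range.1 hl)
  · intro j _
    exact ZMod.natCast_zmod_val j

theorem psi_shift (z : ℂ) (t : ZMod p) (a : ZMod d) {v : ℕ} (hv : v < d) :
    psi d z t ((v : ZMod d) + a) = A d z t (v + a.val - d) + A d z t (v + a.val) +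
      A d z t (v + a.val + d) := by
  have hd : 0 < d := by omega
  have ha := ZMod.val_lt a
  unfold psi
  have h1 : ((v : ZMod d) + a).val = (v + a.val) % d := by
    rw [ZMod.val_add, ZMod.val_cast_of_lt hv]
  rw [h1]
  by_cases h : v + a.val < d
  · rw [Nat.mod_eq_of_lt h, A_of_nonpos z t (n := (v : ℤ) + a.val - d) (by omega)]
    push_cast
    ring
  · rw [Nat.mod_eq_sub_mod (by omega), Nat.mod_eq_of_lt (by omega),
      A_of_ge hd z t (n := (v : ℤ) + a.val + d) (by omega)]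
    rw [Nat.cast_sub (by omega)]
    push_cast
    have h2 : (v : ℤ) + a.val - d + d = v + a.val := by ring
    rw [h2, add_zero]

theorem T_split (z : ℂ) (t : ZMod p) (s : ℤ) (b : ZMod d) :
    T d z t s b = ∑ v ∈ range d, (conj (A d z t (v + s)) * (A d z t v * e (b * (v : ZMod d))) +
      conj (A d z t (v + d + s)) * (A d z t (v + d) * e (b * (v : ZMod d)))) := by
  unfold T
  rw [two_mul, sum_range_add, ← sum_add_distrib]
  refine sum_congr rfl fun v _ => ?_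
  have h1 : (((d + v : ℕ)) : ZMod d) = (v : ZMod d) := by simp
  rw [h1]
  have h2 : (((d + v : ℕ)) : ℤ) = (v : ℤ) + d := by push_cast; ring
  rw [h2]

theorem ov_eq (z : ℂ) (t : ZMod p) (a b : ZMod d) :
    ov (psi d z t) a b = T d z t (a.val - 2 * d) b + T d z t (a.val - d) b + T d z t a.val b +
      T d z t (a.val + d) b := by
  have hd : 0 < d := Nat.pos_of_ne_zero (NeZero.ne d)
  unfold ov
  rw [sum_zmod, T_split, T_split, T_split, T_split, ← sum_add_distrib, ← sum_add_distrib,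
    ← sum_add_distrib]
  refine sum_congr rfl fun v hv => ?_
  rw [mem_range] at hv
  have ha := ZMod.val_lt a
  rw [psi_shift z t a hv]
  have h0 : psi d z t (v : ZMod d) = A d z t v + A d z t (v + d) := by
    unfold psi; rw [ZMod.val_cast_of_lt hv]
  rw [h0]
  have e1 : (v : ℤ) + (a.val - 2 * d) = v + a.val - 2 * d := by ring
  have e2 : (v : ℤ) + d + (a.val - 2 * d) = v + a.val - d := by ring
  have e3 : (v : ℤ) + (a.val - d) = v + a.val - d := by ring
  have e4 : (v : ℤ) + d + (a.val - d) = v + a.val := by ring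
  have e5 : (v : ℤ) + d + a.val = v + a.val + d := by ring
  have e6 : (v : ℤ) + (a.val + d) = v + a.val + d := by ring
  have e7 : (v : ℤ) + d + (a.val + d) = v + a.val + 2 * d := by ring
  rw [e1, e2, e3, e4, e5, e6, e7, A_of_nonpos z t (n := (v : ℤ) + a.val - 2 * d) (by omega),
    A_of_ge hd z t (n := (v : ℤ) + a.val + 2 * d) (by omega)]
  simp only [map_add, map_zero]
  ring

omit [NeZero d] in
/-- the shifts `a - 2 d` and `a + d` -/
theorem cc_outer (a : ℕ) (ha : a < d) : cc d ((a : ℤ) - 2 * d) + cc d ((a : ℤ) + d) ≤ d := by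
  unfold cc
  rw [← sum_add_distrib]
  have h : ∀ n ∈ range (2 * d), ind d ((a : ℤ) - 2 * d) n + ind d ((a : ℤ) + d) n ≤
      (if n < d - a then 1 else 0) + (if 2 * d - a ≤ n then 1 else 0) := by
    intro n hn
    rw [mem_range] at hn
    unfold ind
    split_ifs <;> first | (exfalso; omega) | norm_num
  refine (sum_le_sum h).trans ?_
  rw [sum_add_distrib, sum_boole, sum_boole]
  have h1 : #{x ∈ range (2 * d) | x < d - a} ≤ d - a := by
    refine (card_le_card (t := range (d - a)) ?_).trans (by rw [card_range])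
    intro x hx
    rw [mem_filter] at hx
    exact mem_range.2 hx.2
  have h2 : #{x ∈ range (2 * d) | 2 * d - a ≤ x} ≤ a := by
    refine (card_le_card (t := Ico (2 * d - a) (2 * d)) ?_).trans (by rw [Nat.card_Ico]; omega)
    intro x hx
    rw [mem_filter, mem_range] at hx
    exact mem_Ico.2 ⟨hx.2, hx.1⟩
  exact_mod_cast (by omega : #{x ∈ range (2 * d) | x < d - a} +
    #{x ∈ range (2 * d) | 2 * d - a ≤ x} ≤ d)

omit [NeZero d] in
/-- all four shifts: each `n` is counted exactly twice -/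
theorem sum_cc (a : ℕ) (ha : a < d) :
    cc d ((a : ℤ) - 2 * d) + cc d ((a : ℤ) - d) + cc d a + cc d ((a : ℤ) + d) ≤ 4 * d := by
  unfold cc
  rw [← sum_add_distrib, ← sum_add_distrib, ← sum_add_distrib]
  have h : ∀ n ∈ range (2 * d), ind d ((a : ℤ) - 2 * d) n + ind d ((a : ℤ) - d) n + ind d a n +
      ind d ((a : ℤ) + d) n ≤ 2 := by
    intro n _
    unfold ind
    split_ifs <;> first | (exfalso; omega) | norm_num
  calc _ ≤ ∑ n ∈ range (2 * d), (2 : ℝ) := sum_le_sum h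
    _ = 4 * d := by rw [sum_const, card_range, nsmul_eq_mul]; push_cast; ring

theorem norm_A_sq {z : ℂ} (hz : ‖z‖ = 1) (t : ZMod p) (n : ℤ) : ‖A d z t n‖ ^ 2 = w d n ^ 2 := by
  unfold A
  rw [norm_mul, norm_mul, norm_e, mul_one, norm_zpow, hz, one_zpow, mul_one, Complex.norm_real,
    Real.norm_eq_abs, sq_abs]

theorem T_zero {z : ℂ} (hz : ‖z‖ = 1) (t : ZMod p) {b : ZMod d} (hb : b ≠ 0) :
    T d z t 0 b = 0 := by
  have hd : 0 < d := Nat.pos_of_ne_zero (NeZero.ne d)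
  rw [T_split]
  have h1 : ∀ v ∈ range d, (conj (A d z t (v + 0)) * (A d z t v * e (b * (v : ZMod d))) +
      conj (A d z t (v + d + 0)) * (A d z t (v + d) * e (b * (v : ZMod d)))) =
      e ((v : ZMod d) * b) := by
    intro v hv
    rw [mem_range] at hv
    rw [add_zero, add_zero]
    have h2 : ∀ n : ℤ, conj (A d z t n) * A d z t n = ((w d n ^ 2 : ℝ) : ℂ) := by
      intro n
      rw [conj_mul_self', norm_A_sq hz]
    have h3 := w_sq_add hd (n := (v : ℤ)) (by omega) (by omega)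
    calc _ = (conj (A d z t v) * A d z t v + conj (A d z t (v + d)) * A d z t (v + d)) *
          e (b * (v : ZMod d)) := by ring
      _ = (((w d v ^ 2 + w d (v + d) ^ 2 : ℝ)) : ℂ) * e (b * (v : ZMod d)) := by
          rw [h2, h2]; push_cast; ring
      _ = _ := by rw [h3, mul_comm b]; simp
  rw [sum_congr rfl h1, ← sum_zmod (fun x => e (x * b)), sum_e, if_neg hb]

theorem T_neg_two (z : ℂ) (t : ZMod p) (b : ZMod d) : T d z t (-(2 * (d : ℤ))) b = 0 := by
  unfold T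
  apply sum_eq_zero
  intro n hn
  rw [mem_range] at hn
  rw [A_of_nonpos z t (n := (n : ℤ) + -(2 * (d : ℤ))) (by omega)]
  simp

/-- Overlaps. -/
theorem ov_bound (hd : 95 ≤ d) (hp : p.Prime) (h2d : 2 * d < p) (h4d : p ≤ 4 * d) {z : ℂ}
    (hz : ‖z‖ = 1) (t : ZMod p) (ht : 3 * t = 1) (a b : ZMod d) (hab : (a, b) ≠ (0, 0)) :
    ‖ov (psi d z t) a b‖ ^ 2 ≤ 94.5 * d := by
  have hd0 : (0 : ℝ) < d := by exact_mod_cast (by omega : 0 < d)
  rw [ov_eq]
  by_cases ha : a = 0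
  · have hb : b ≠ 0 := fun hb => hab (by rw [ha, hb])
    subst ha
    have e1 : (((0 : ZMod d).val : ℕ) : ℤ) - 2 * d = -(2 * (d : ℤ)) := by rw [ZMod.val_zero]; simp
    have e2 : (((0 : ZMod d).val : ℕ) : ℤ) - d = -(d : ℤ) := by rw [ZMod.val_zero]; simp
    have e3 : (((0 : ZMod d).val : ℕ) : ℤ) + d = (d : ℤ) := by rw [ZMod.val_zero]; simp
    have e4 : (((0 : ZMod d).val : ℕ) : ℤ) = 0 := by rw [ZMod.val_zero]; simp
    rw [e1, e2, e3, e4, T_neg_two, T_zero hz t hb, zero_add, add_zero]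
    have h1 := T_bound hd hp h2d h4d hz t ht (s := (d : ℤ)) (by omega) (by omega) (by omega) b
    have h2 := T_bound hd hp h2d h4d hz t ht (s := -(d : ℤ)) (by omega) (by omega) (by omega) b
    have h3 := sum_cc (d := d) 0 (by omega)
    have f1 : ((0 : ℕ) : ℤ) - d = -(d : ℤ) := by simp
    have f2 : ((0 : ℕ) : ℤ) + d = (d : ℤ) := by simp
    rw [f1, f2] at h3
    have f3 := cc_nonneg d (((0 : ℕ) : ℤ) - 2 * d)
    have f4 := cc_nonneg d ((0 : ℕ) : ℤ)
    have h4 := norm_add_le (T d z t (-(d : ℤ)) b) (T d z t (d : ℤ) b)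
    have h5 : ‖T d z t (-(d : ℤ)) b + T d z t (d : ℤ) b‖ ^ 2 ≤
        2 * (‖T d z t (-(d : ℤ)) b‖ ^ 2 + ‖T d z t (d : ℤ) b‖ ^ 2) := by
      refine (pow_le_pow_left₀ (norm_nonneg _) h4 2).trans ?_
      nlinarith [sq_nonneg (‖T d z t (-(d : ℤ)) b‖ - ‖T d z t (d : ℤ) b‖)]
    linarith
  · have hv : 0 < a.val := Nat.pos_of_ne_zero fun h => ha ((ZMod.val_eq_zero a).1 h)
    have hv2 := ZMod.val_lt a
    have h1 := T_bound hd hp h2d h4d hz t ht (s := (a.val : ℤ) - 2 * d) (by omega) (by omega)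
      (by omega) b
    have h2 := T_bound hd hp h2d h4d hz t ht (s := (a.val : ℤ) - d) (by omega) (by omega)
      (by omega) b
    have h3 := T_bound hd hp h2d h4d hz t ht (s := (a.val : ℤ)) (by omega) (by omega)
      (by omega) b
    have h4 := T_bound hd hp h2d h4d hz t ht (s := (a.val : ℤ) + d) (by omega) (by omega)
      (by omega) b
    have h5 := sum_cc (d := d) a.val hv2
    have h8 := cc_outer (d := d) a.val hv2
    set x1 := T d z t ((a.val : ℤ) - 2 * d) b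
    set x2 := T d z t ((a.val : ℤ) - d) b
    set x3 := T d z t (a.val : ℤ) b
    set x4 := T d z t ((a.val : ℤ) + d) b
    have h6 : ‖x1 + x2 + x3 + x4‖ ≤ ‖x1‖ + ‖x2‖ + ‖x3‖ + ‖x4‖ :=
      (norm_add_le _ _).trans (by
        have := norm_add_le (x1 + x2) x3
        have := norm_add_le x1 x2
        linarith)
    have h7 : ‖x1 + x2 + x3 + x4‖ ^ 2 ≤
        22 * (‖x1‖ ^ 2 / 4 + ‖x2‖ ^ 2 / 7 + ‖x3‖ ^ 2 / 7 + ‖x4‖ ^ 2 / 4) := by
      refine (pow_le_pow_left₀ (norm_nonneg _) h6 2).trans ?_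
      nlinarith [sq_nonneg (7 * ‖x1‖ - 4 * ‖x2‖), sq_nonneg (7 * ‖x1‖ - 4 * ‖x3‖),
        sq_nonneg (‖x1‖ - ‖x4‖), sq_nonneg (‖x2‖ - ‖x3‖), sq_nonneg (4 * ‖x2‖ - 7 * ‖x4‖),
        sq_nonneg (4 * ‖x3‖ - 7 * ‖x4‖)]
    linarith

/-- One of the two vectors has norm at least `√ d`. -/
theorem exists_norm (t : ZMod p) : ∃ z : ℂ, ‖z‖ = 1 ∧ (d : ℝ) ≤ ∑ j, ‖psi d z t j‖ ^ 2 := by
  have hd : 0 < d := Nat.pos_of_ne_zero (NeZero.ne d)
  have hd' : (d : ℂ) ≠ 0 := by exact_mod_cast hd.ne'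
  set z : ℂ := Complex.exp (Real.pi / d * Complex.I) with hz
  have hz1 : ‖z‖ = 1 := by
    have : (Real.pi / d * Complex.I : ℂ) = ((Real.pi / d : ℝ) : ℂ) * Complex.I := by push_cast; ring
    rw [hz, this, Complex.norm_exp_ofReal_mul_I]
  have hz0 : z ≠ 0 := by
    intro h; rw [h, norm_zero] at hz1; exact zero_ne_one hz1
  have hzd : z ^ (d : ℤ) = -1 := by
    rw [zpow_natCast, hz, ← Complex.exp_nat_mul]
    have : (d : ℂ) * (Real.pi / d * Complex.I) = Real.pi * Complex.I := by field_simp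
    rw [this, Complex.exp_pi_mul_I]
  have hsum : ∑ j, ‖psi d 1 t j‖ ^ 2 + ∑ j, ‖psi d z t j‖ ^ 2 = 2 * d := by
    rw [← sum_add_distrib]
    have h : ∀ j : ZMod d, ‖psi d 1 t j‖ ^ 2 + ‖psi d z t j‖ ^ 2 = 2 := by
      intro j
      have hj := ZMod.val_lt j
      set v : ℤ := (j.val : ℤ) with hv
      have h1 : psi d 1 t j = A d 1 t v + A d 1 t (v + d) := rfl
      have h2 : psi d z t j = z ^ v * (A d 1 t v - A d 1 t (v + d)) := by
        change A d z t v + A d z t (v + d) = _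
        unfold A
        rw [zpow_add₀ hz0, hzd, one_zpow, one_zpow]
        push_cast
        ring
      have h3 : ‖psi d z t j‖ = ‖A d 1 t v - A d 1 t (v + d)‖ := by
        rw [h2, norm_mul, norm_zpow, hz1, one_zpow, one_mul]
      rw [h3, h1]
      have h4 := parallelogram_law_with_norm ℝ (A d 1 t v) (A d 1 t (v + d))
      have h5 := w_sq_add hd (n := v) (by omega) (by omega)
      rw [← norm_A_sq (d := d) (norm_one (α := ℂ)) t, ← norm_A_sq (d := d) (norm_one (α := ℂ)) t] at h5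
      nlinarith
    rw [sum_congr rfl fun j _ => h j, sum_const, card_univ, ZMod.card, nsmul_eq_mul]
    ring
  by_cases h : (d : ℝ) ≤ ∑ j, ‖psi d 1 t j‖ ^ 2
  · exact ⟨1, norm_one, h⟩
  · exact ⟨z, hz1, by linarith⟩

/-- an unnormalised vector with small overlaps, in every dimension `d ≥ 95` -/
theorem exists_large (hd : 95 ≤ d) : ∃ f : ZMod d → ℂ, (d : ℝ) ≤ ∑ j, ‖f j‖ ^ 2 ∧
    ∀ a b : ZMod d, (a, b) ≠ (0, 0) → ‖ov f a b‖ ^ 2 ≤ 94.5 * d := by
  obtain ⟨p, hp, h1, h2⟩ := Nat.exists_prime_lt_and_le_two_mul (2 * d) (by omega)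
  have : Fact p.Prime := ⟨hp⟩
  have h3 : (3 : ZMod p) ≠ 0 := by
    intro h
    have h4 : ((3 : ℕ) : ZMod p) = 0 := by exact_mod_cast h
    rw [ZMod.natCast_eq_zero_iff] at h4
    have := Nat.le_of_dvd (by norm_num) h4
    omega
  obtain ⟨z, hz, hn⟩ := exists_norm (d := d) ((3 : ZMod p)⁻¹)
  exact ⟨psi d z ((3 : ZMod p)⁻¹), hn, fun a b hab =>
    ov_bound hd hp h1 (by omega) hz _ (mul_inv_cancel₀ h3) a b hab⟩

end Pool.Agent.U900.NS
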