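import Pool.Agent.U900.NS.Sum

set_option autoImplicit false

/-! # The window and the local estimate -/

namespace Pool.Agent.U900.NS

open Finset Complex Pool.Agent.R503.SIC
open scoped ComplexConjugate

/-- the window `sin (π n / (2 d))` on `[0, 2 d]` -/
noncomputable def w (d : ℕ) (n : ℤ) : ℝ :=
  if 0 ≤ n ∧ n ≤ 2 * (d : ℤ) then Real.sin (Real.pi * n / (2 * d)) else 0

theorem w_of_nonpos (d : ℕ) {n : ℤ} (h : n ≤ 0) : w d n = 0 := by
  unfold w
  split_ifs with h1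
  · have : n = 0 := le_antisymm h h1.1
    rw [this]; simp
  · rfl

theorem w_of_ge {d : ℕ} (hd : 0 < d) {n : ℤ} (h : 2 * (d : ℤ) ≤ n) : w d n = 0 := by
  unfold w
  split_ifs with h1
  · have h2 : n = 2 * (d : ℤ) := le_antisymm h1.2 h
    have hd' : (d : ℝ) ≠ 0 := by positivity
    have h3 : Real.pi * (n : ℝ) / (2 * d) = Real.pi := by
      rw [h2]; push_cast; field_simp
    rw [h3, Real.sin_pi]
  · rfl

theorem w_eq {d : ℕ} {n : ℤ} (h0 : 0 ≤ n) (h : n ≤ 2 * (d : ℤ)) :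
    w d n = Real.sin (Real.pi * n / (2 * d)) := if_pos ⟨h0, h⟩

theorem abs_w_le (d : ℕ) (n : ℤ) : |w d n| ≤ 1 := by
  unfold w
  split_ifs
  · exact Real.abs_sin_le_one _
  · simp

theorem w_sq_add {d : ℕ} (hd : 0 < d) {n : ℤ} (h0 : 0 ≤ n) (h : n ≤ d) :
    w d n ^ 2 + w d (n + d) ^ 2 = 1 := by
  rw [w_eq h0 (by omega), w_eq (by omega) (by omega)]
  have hd' : (d : ℝ) ≠ 0 := by positivity
  have h3 : Real.pi * ((n + d : ℤ) : ℝ) / (2 * d) = Real.pi * n / (2 * d) + Real.pi / 2 := by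
    push_cast; field_simp
  rw [h3, Real.sin_add_pi_div_two, Real.sin_sq_add_cos_sq]

/-- the amplitude of the sum with shift `s` -/
noncomputable def gg (d : ℕ) (s : ℤ) (n : ℕ) : ℝ := w d (n + s) * w d n

/-- the indicator of the interval `0 ≤ n + s < 2 d` -/
noncomputable def ind (d : ℕ) (s : ℤ) (n : ℕ) : ℝ :=
  if 0 ≤ (n : ℤ) + s ∧ (n : ℤ) + s < 2 * (d : ℤ) then 1 else 0

theorem ind_nonneg (d : ℕ) (s : ℤ) (n : ℕ) : 0 ≤ ind d s n := by
  unfold ind; split_ifs <;> norm_num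

theorem gg_zero (d : ℕ) (s : ℤ) : gg d s 0 = 0 := by
  unfold gg; rw [w_of_nonpos d (n := ((0 : ℕ) : ℤ)) (by simp), mul_zero]

theorem gg_of_ge {d : ℕ} (hd : 0 < d) (s : ℤ) {n : ℕ} (h : 2 * d ≤ n) : gg d s n = 0 := by
  unfold gg; rw [w_of_ge hd (n := (n : ℤ)) (by omega), mul_zero]

theorem gg_sq_le {d : ℕ} (hd : 0 < d) (s : ℤ) (n : ℕ) : gg d s n ^ 2 ≤ ind d s n := by
  unfold ind
  split_ifs with h
  · unfold gg
    rw [mul_pow]
    have h1 := abs_w_le d (n + s)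
    have h2 := abs_w_le d n
    have h3 : w d (n + s) ^ 2 ≤ 1 := by rw [sq_le_one_iff_abs_le_one]; exact h1
    have h4 : w d n ^ 2 ≤ 1 := by rw [sq_le_one_iff_abs_le_one]; exact h2
    nlinarith [sq_nonneg (w d (n + s)), sq_nonneg (w d n)]
  · unfold gg
    have : w d (n + s) = 0 := by
      by_cases h1 : (n : ℤ) + s ≤ 0
      · exact w_of_nonpos d h1
      · exact w_of_ge hd (by omega)
    rw [this]; norm_num

/-- `sin x sin y - sin x' sin y'` for a step of length `h` -/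
theorem sin_step (x y h : ℝ) : Real.sin (x + h) * Real.sin (y + h) - Real.sin x * Real.sin y =
    Real.sin h * Real.sin (x + y + h) := by
  have h1 : Real.sin (x + y + h) = Real.sin (x + y) * Real.cos h + Real.cos (x + y) * Real.sin h :=
    Real.sin_add _ _
  rw [h1, Real.sin_add x h, Real.sin_add y h, Real.sin_add x y, Real.cos_add x y]
  have h2 := Real.sin_sq_add_cos_sq h
  have h3 : Real.cos h ^ 2 = 1 - Real.sin h ^ 2 := by linarith
  linear_combination (Real.sin x * Real.sin y) * h3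

theorem gg_diff_le {d : ℕ} (hd : 0 < d) (s : ℤ) (n : ℕ) (hn : n < 2 * d) :
    (gg d s (n + 1) - gg d s n) ^ 2 ≤ (Real.pi / (2 * d)) ^ 2 * ind d s n := by
  have hd' : (0 : ℝ) < d := by positivity
  unfold ind
  split_ifs with h
  · unfold gg
    rw [w_eq (n := ((n + 1 : ℕ) : ℤ) + s) (by push_cast; omega) (by push_cast; omega),
      w_eq (n := ((n + 1 : ℕ) : ℤ)) (by push_cast; omega) (by push_cast; omega),
      w_eq (n := (n : ℤ) + s) (by omega) (by omega),
      w_eq (n := (n : ℤ)) (by omega) (by omega)]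
    have h1 : Real.pi * ((((n + 1 : ℕ) : ℤ) + s : ℤ) : ℝ) / (2 * d) =
        Real.pi * (((n : ℤ) + s : ℤ) : ℝ) / (2 * d) + Real.pi / (2 * d) := by
      push_cast; field_simp; ring
    have h2 : Real.pi * (((n + 1 : ℕ) : ℤ) : ℝ) / (2 * d) =
        Real.pi * ((n : ℤ) : ℝ) / (2 * d) + Real.pi / (2 * d) := by
      push_cast; field_simp
    rw [h1, h2, sin_step, mul_pow, mul_one]
    have h3 : Real.sin (Real.pi / (2 * d)) ^ 2 ≤ (Real.pi / (2 * d)) ^ 2 := by
      rw [sq_le_sq]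
      have h4 : 0 ≤ Real.pi / (2 * d) := by positivity
      rw [abs_of_nonneg h4]
      exact Real.abs_sin_le_abs.trans (le_of_eq (abs_of_nonneg h4))
    have h5 : Real.sin (Real.pi * (((n : ℤ) + s : ℤ) : ℝ) / (2 * d) +
        Real.pi * ((n : ℤ) : ℝ) / (2 * d) + Real.pi / (2 * d)) ^ 2 ≤ 1 := Real.sin_sq_le_one _
    calc _ ≤ Real.sin (Real.pi / (2 * d)) ^ 2 * 1 :=
          mul_le_mul_of_nonneg_left h5 (sq_nonneg _)
      _ ≤ _ := by rw [mul_one]; exact h3
  · unfold gg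
    have h1 : w d (n + s) = 0 := by
      by_cases h1 : (n : ℤ) + s ≤ 0
      · exact w_of_nonpos d h1
      · exact w_of_ge hd (by omega)
    have h2 : w d (((n + 1 : ℕ) : ℤ) + s) = 0 := by
      by_cases h1 : (n : ℤ) + s < 0
      · exact w_of_nonpos d (by push_cast; omega)
      · exact w_of_ge hd (by push_cast; omega)
    rw [h1, h2]; norm_num

/-- the number of `0 ≤ n < 2 d` with `0 ≤ n + s < 2 d` -/
noncomputable def cc (d : ℕ) (s : ℤ) : ℝ := ∑ n ∈ range (2 * d), ind d s n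

theorem cc_nonneg (d : ℕ) (s : ℤ) : 0 ≤ cc d s := sum_nonneg fun _ _ => ind_nonneg _ _ _

theorem sum_gg {d : ℕ} (hd : 0 < d) (s : ℤ) {M : ℕ} (hM : 2 * d ≤ M) {r : ℝ} (hr : 0 ≤ r) :
    ∑ n ∈ range M, (gg d s (n + 1) - r * gg d s n) ^ 2 ≤
      r * ((Real.pi / (2 * d)) ^ 2 * cc d s) + (1 - r) ^ 2 * cc d s := by
  rw [sum_diff_sq _ _ (gg_zero d s) (gg_of_ge hd s hM)]
  have h1 : ∑ n ∈ range M, (gg d s (n + 1) - gg d s n) ^ 2 ≤ (Real.pi / (2 * d)) ^ 2 * cc d s := by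
    rw [← sum_subset (range_subset_range.2 hM)]
    · unfold cc
      rw [mul_sum]
      exact sum_le_sum fun n hn => gg_diff_le hd s n (mem_range.1 hn)
    · intro n _ hn
      rw [mem_range, not_lt] at hn
      rw [gg_of_ge hd s hn, gg_of_ge hd s (by omega)]; norm_num
  have h2 : ∑ n ∈ range M, gg d s n ^ 2 ≤ cc d s := by
    rw [← sum_subset (range_subset_range.2 hM)]
    · exact sum_le_sum fun n _ => gg_sq_le hd s n
    · intro n _ hn
      rw [mem_range, not_lt] at hn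
      rw [gg_of_ge hd s hn]; norm_num
  have h3 := mul_le_mul_of_nonneg_left h1 hr
  have h4 := mul_le_mul_of_nonneg_left h2 (sq_nonneg (1 - r))
  linarith

/-- **The smooth quadratic sum.** -/
theorem quad_bound {d p : ℕ} [NeZero p] (hd : 95 ≤ d) (h2d : 2 * d < p)
    (h4d : p ≤ 4 * d) (s : ℤ) (W : ℂ) (hW : ‖W‖ = 1) {u : ZMod p} (hu : IsUnit (2 * u))
    (v : ZMod p) :
    ‖∑ n ∈ range (2 * d), (gg d s n : ℂ) * W ^ n * e (u * (n : ZMod p) ^ 2 + v * (n : ZMod p))‖ ^ 2 ≤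
      6.33 * cc d s := by
  have hd0 : 0 < d := by omega
  have hpos : (0 : ℝ) < p := by exact_mod_cast (by omega : 0 < p)
  set r : ℝ := 1 - 6 / p with hr
  have hp5 : (100 : ℝ) ≤ p := by exact_mod_cast (by omega : 100 ≤ p)
  have h6 : 6 / (p : ℝ) ≤ 6 / 100 := by
    apply div_le_div_of_nonneg_left <;> linarith
  have h60 : 0 < 6 / (p : ℝ) := by positivity
  have hr0 : 0 ≤ r := by rw [hr]; linarith
  have hr1 : r ≤ 1 := by rw [hr]; linarith
  have hcore := N655.WH.core hu v (fun x : ZMod p => (gg d s x.val : ℂ) * W ^ x.val) (r * W)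
  have h1 : ∑ x : ZMod p, (gg d s x.val : ℂ) * W ^ x.val * e (u * x ^ 2 + v * x) =
      ∑ n ∈ range (2 * d), (gg d s n : ℂ) * W ^ n * e (u * (n : ZMod p) ^ 2 + v * (n : ZMod p)) := by
    symm
    have h2 : ∑ n ∈ range (2 * d), (gg d s n : ℂ) * W ^ n * e (u * (n : ZMod p) ^ 2 + v * (n : ZMod p)) =
        ∑ n ∈ range p, (gg d s n : ℂ) * W ^ n * e (u * (n : ZMod p) ^ 2 + v * (n : ZMod p)) := by
      apply sum_subset (range_subset_range.2 h2d.le)
      intro n _ hn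
      rw [mem_range, not_lt] at hn
      rw [gg_of_ge hd0 s hn]; simp
    rw [h2]
    refine sum_bij' (fun l _ => (l : ZMod p)) (fun j _ => j.val) (fun _ _ => mem_univ _)
      (fun j _ => mem_range.2 (ZMod.val_lt j)) ?_ ?_ ?_
    · intro l hl
      exact ZMod.val_cast_of_lt (mem_range.1 hl)
    · intro j _
      exact ZMod.natCast_zmod_val j
    · intro l hl
      have : ((l : ℕ) : ZMod p).val = l := ZMod.val_cast_of_lt (mem_range.1 hl)
      simp only [this]
  rw [h1, sum_diff_norm (gg d s) (gg_zero d s) (gg_of_ge hd0 s (by omega)) (by omega) W hW] at hcore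
  have hz : ‖(r : ℂ) * W‖ = r := by
    rw [norm_mul, hW, mul_one, Complex.norm_real, Real.norm_eq_abs, abs_of_nonneg hr0]
  rw [hz] at hcore
  have hZ : 1 - r ^ p ≤ ‖1 - ((r : ℂ) * W) ^ p‖ := by
    have h3 := norm_sub_norm_le (1 : ℂ) (((r : ℂ) * W) ^ p)
    rw [norm_one, norm_pow, hz] at h3
    exact h3
  refine numeric (by omega) (d := (d : ℝ)) (by positivity) (by exact_mod_cast h4d)
    (sq_nonneg _) (cc_nonneg d s) hr hZ ?_
  refine hcore.trans ?_
  have h3 := sum_gg hd0 s (M := p - 1) (by omega) hr0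
  have h4 : (0 : ℝ) ≤ ∑ l ∈ range p, (r ^ 2) ^ l := sum_nonneg fun _ _ => by positivity
  exact mul_le_mul_of_nonneg_left (mul_le_mul_of_nonneg_left h3 hpos.le) h4

end Pool.Agent.U900.NS
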